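import Pool.Agent.Q201.RC.Thtf

set_option autoImplicit false

/-!
# Project RC: `q d/dq` of polynomials
-/

namespace Pool.Agent.Q277.RC

open PowerSeries Q201.RC Q279.QS Pool.Agent.Q201.RCThtf

section
variable {R : Type} [CommRing R]

theorem tht_sub (F G : R⟦X⟧) : tht (F - G) = tht F - tht G := by
  ext n; rw [coeff_tht, map_sub, map_sub, coeff_tht, coeff_tht, mul_sub]

theorem tht_C (a : R) : tht (C a) = 0 := by
  ext n
  rw [coeff_tht, coeff_C]
  split_ifs with h
  · subst h; simp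
  · simp

theorem tht_natCast (a : ℕ) : tht ((a : ℕ) : R⟦X⟧) = 0 := by
  have : ((a : ℕ) : R⟦X⟧) = C (a : R) := (map_natCast C a).symm
  rw [this, tht_C]

theorem tht_natCast_mul (a : ℕ) (f : R⟦X⟧) : tht ((a : R⟦X⟧) * f) = a * tht f := by
  rw [tht_mul, tht_natCast, zero_mul, zero_add]

theorem tht_ofNat_mul (a : ℕ) [a.AtLeastTwo] (f : R⟦X⟧) :
    tht ((OfNat.ofNat a : R⟦X⟧) * f) = OfNat.ofNat a * tht f := tht_natCast_mul a f

/-- formal derivative, evaluated -/
def D : List ℕ → R → R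
  | [], _ => 0
  | _ :: l, x => ev l x + x * D l x

theorem ev_derL_succ {n : ℕ} (hn : (n : R) = 0) (l : List ℕ) (k : ℕ) (x : R) :
    ev (derL n (k + 1) l) x = ((k + 1 : ℕ) : R) * ev l x + x * D l x := by
  induction l generalizing k with
  | nil => simp [derL, D]
  | cons a l ih =>
    simp only [derL, ev_cons, ih, cast_mod hn, D]
    push_cast
    ring

theorem ev_derL {n : ℕ} (hn : (n : R) = 0) (l : List ℕ) (x : R) :
    ev (derL n 0 l) x = D l x := by
  cases l with
  | nil => simp [derL, D]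
  | cons a l =>
    rw [derL, ev_derL_succ hn, D]
    push_cast
    ring

theorem tht_ev' (l : List ℕ) (f : R⟦X⟧) : tht (ev l f) = D l f * tht f := by
  induction l with
  | nil =>
    rw [ev_nil, D, zero_mul]
    ext n; simp [tht]
  | cons a l ih =>
    rw [ev_cons, tht_add, tht_natCast, tht_mul, ih, D]
    ring

theorem tht_ev {n : ℕ} (hn : (n : R⟦X⟧) = 0) (l : List ℕ) (f : R⟦X⟧) :
    tht (ev l f) = ev (derL n 0 l) f * tht f := by
  rw [tht_ev', ev_derL hn]

end

theorem nat_zero (n : ℕ) : ((n : ℕ) : (ZMod n)⟦X⟧) = 0 := by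
  have : ((n : ℕ) : (ZMod n)⟦X⟧) = C ((n : ℕ) : ZMod n) := (map_natCast C n).symm
  rw [this, ZMod.natCast_self, map_zero]

theorem xq_ne (n : ℕ) (hn : 1 < n) (hR : constantCoeff Rq = 1) : red n xq ≠ 0 := by
  have : Fact (1 < n) := ⟨hn⟩
  intro h
  have h1 : coeff 1 (red n xq) = 1 := by
    rw [coeff_map, show xq = X * e5 Rq from rfl, show (1 : ℕ) = 0 + 1 from rfl, coeff_succ_X_mul,
      coeff_expand, if_pos (dvd_zero _), Nat.zero_div, coeff_zero_eq_constantCoeff_apply, hR, map_one]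
  rw [h, map_zero] at h1
  exact zero_ne_one h1

theorem cc_xq : constantCoeff xq = 0 := by
  rw [show xq = X * e5 Rq from rfl, map_mul, constantCoeff_X, zero_mul]

theorem cc_tq : constantCoeff tq = 0 := by
  rw [show tq = X * Rq ^ 5 from rfl, map_mul, constantCoeff_X, zero_mul]

theorem cc_red (n : ℕ) (F : ℤ⟦X⟧) : constantCoeff (red n F) = ((constantCoeff F : ℤ) : ZMod n) := by
  rw [← coeff_zero_eq_constantCoeff_apply, coeff_map, coeff_zero_eq_constantCoeff_apply, eq_intCast]

theorem ne_zero_of_cc {R : Type} [CommRing R] [Nontrivial R] {F : R⟦X⟧} (h : constantCoeff F = 1) :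
    F ≠ 0 := by
  intro h0
  rw [h0, map_zero] at h
  exact zero_ne_one h

theorem cc_ev {R : Type} [CommRing R] (a : ℕ) (l : List ℕ) (f : R⟦X⟧) (h : constantCoeff f = 0) :
    constantCoeff (ev (a :: l) f) = a := by
  rw [ev_cons, map_add, map_mul, h, zero_mul, add_zero, map_natCast]

end Pool.Agent.Q277.RC
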