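import Pool.Agent.Q277.RC.Der

set_option autoImplicit false

/-!
# Project RC: the step `U 3` modulo 3
-/

namespace Pool.Agent.Q277.RC

open PowerSeries Q201.RC Q279.QS Pool.Agent.Q201.RCThtf

/-- `x (1 + x^5 - x^10)` -/
def Tl : List ℕ := [0, 1, 0, 0, 0, 0, 1, 0, 0, 0, 0, 2]

/-- `1 + x^10` -/
def Ql : List ℕ := [1, 0, 0, 0, 0, 0, 0, 0, 0, 0, 1]

def thA (A B : List ℕ) : List ℕ :=
  mulL 3 (addL 3 (mulL 3 (derL 3 0 A) B) (smulL 3 2 (mulL 3 A (derL 3 0 B)))) Tl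

def thB (B : List ℕ) : List ℕ := mulL 3 (mulL 3 B B) Ql

def chk3 (A B P : List ℕ) : Bool :=
  let A1 := thA A B
  let B1 := thB B
  let A2 := thA A1 B1
  let B2 := thB B1
  eqL 3 (mulL 3 (addL 3 (mulL 3 A B2) (smulL 3 2 (mulL 3 A2 B))) (powL 3 Ql 3))
    (mulL 3 (powL 3 P 3) (mulL 3 B B2))

theorem three0 : ((3 : ℕ) : (ZMod 3)⟦X⟧) = 0 := nat_zero 3

theorem three0' : (3 : (ZMod 3)⟦X⟧) = 0 := nat_zero 3

theorem th_step (x f : (ZMod 3)⟦X⟧) (A B : List ℕ) (hx : tht x * ev Ql x = ev Tl x)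
    (hf : f * ev B x = ev A x) : tht f * ev (thB B) x = ev (thA A B) x := by
  have h1 := congrArg tht hf
  rw [tht_mul, tht_ev three0, tht_ev three0] at h1
  unfold thB thA
  simp only [ev_mulL three0, ev_addL three0, ev_smulL three0]
  push_cast
  have h3 := three0'
  linear_combination (ev B x * ev Ql x) * h1
    + (ev (derL 3 0 A) x * ev B x - ev A x * ev (derL 3 0 B) x) * hx
    - (ev (derL 3 0 B) x * tht x * ev Ql x) * hf - (ev A x * ev (derL 3 0 B) x * ev Tl x) * h3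

theorem cube_inj {a b : (ZMod 3)⟦X⟧} (h : a ^ 3 = b ^ 3) : a = b := by
  have : Fact (Nat.Prime 3) := ⟨Nat.prime_three⟩
  have h3 := three0'
  have h1 : (a - b) ^ 3 = 0 := by linear_combination h + (a * b ^ 2 - a ^ 2 * b) * h3
  have h2 := pow_eq_zero_iff (n := 3) (by norm_num) |>.1 h1
  exact sub_eq_zero.1 h2

theorem step3 (x f : (ZMod 3)⟦X⟧) (A P B : List ℕ) (a b : ℕ) (l m : List ℕ) (hB : B = a :: l)
    (hB2 : thB (thB B) = b :: m)
    (ha : (a : ZMod 3) = 1) (hb : (b : ZMod 3) = 1)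
    (cx : constantCoeff x = 0) (hx : tht x * ev Ql x = ev Tl x)
    (hf : f * ev B x = ev A x) (hc : chk3 A B P = true) : U 3 f * ev Ql x = ev P x := by
  have : Fact (Nat.Prime 3) := ⟨Nat.prime_three⟩
  have h1 := th_step x f A B hx hf
  have h2 := th_step x (tht f) _ _ hx h1
  have h3 := ev_eqL three0 hc x
  simp only [ev_mulL three0, ev_addL three0, ev_smulL three0, ev_powL three0] at h3
  push_cast at h3
  have h4 := frob3 f
  have hne : ev B x * ev (thB (thB B)) x ≠ 0 := by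
    apply mul_ne_zero
    · rw [hB]
      apply ne_zero_of_cc
      rw [cc_ev _ _ _ cx, ha]
    · rw [hB2]
      apply ne_zero_of_cc
      rw [cc_ev _ _ _ cx, hb]
  apply cube_inj
  rw [mul_pow, ← h4]
  apply mul_left_cancel₀ hne
  have h5 := three0'
  linear_combination h3 + (ev (thB (thB B)) x * ev Ql x ^ 3) * hf
    - (ev B x * ev Ql x ^ 3) * h2 - (ev (thA (thA A B) (thB B)) x * ev B x * ev Ql x ^ 3) * h5

end Pool.Agent.Q277.RC
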